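import Pool.Agent.N98.VG.Grp

/-!
Divisibility in quotients of groups of values by convex subgroups.
-/

set_option autoImplicit false
set_option linter.unusedVariables false
set_option linter.unusedSectionVars false

universe u

namespace Pool.Agent.N98.VH

open Pool.Agent.N98.VG

/-- Divisibility in finitely generated subgroups of torsion-free groups. -/
theorem val_divQ {Q : Type*} [CommGroup Q] (htf : ∀ (n : ℕ) (g : Q), n ≠ 0 → g ^ n = 1 → g = 1)
    (S : Set Q) (hS : S.Finite)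
    (a : Q) (ha : a ≠ 1) (haS : a ∈ Subgroup.closure S) (p : ℕ) (hp : p.Prime) :
    ∃ j0 : ℕ, ∀ j, j0 ≤ j → ∀ s ∈ Subgroup.closure S, ∀ A : ℤ, ¬ (p : ℤ) ∣ A →
      a ^ A ≠ s ^ (p ^ j) := by
  classical
  have hfg : (Subgroup.closure S).FG := ⟨hS.toFinset, by rw [hS.coe_toFinset]⟩
  have hfin : Module.Finite ℤ (Additive (Subgroup.closure S)) := by
    rw [Module.Finite.iff_addGroup_fg]
    have : Group.FG (Subgroup.closure S) := (Group.fg_iff_subgroup_fg _).2 hfg
    exact inferInstance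
  obtain ⟨j0, hj0⟩ := fg_div (G := Additive (Subgroup.closure S)) (by
    intro n g hn hg
    have h1 : (Additive.toMul g) ^ n = 1 := by
      have := congrArg Additive.toMul hg
      rwa [toMul_nsmul, toMul_zero] at this
    have h2 : ((Additive.toMul g : Subgroup.closure S) : Q) ^ n = 1 := by
      rw [← Subgroup.coe_pow, h1, Subgroup.coe_one]
    have h3 : ((Additive.toMul g : Subgroup.closure S) : Q) = 1 := htf n _ hn h2
    have h5 : Additive.toMul g = 1 := Subtype.ext h3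
    exact Additive.toMul.injective (by rw [h5]; rfl)) (Additive.ofMul ⟨a, haS⟩) (by
      intro h
      apply ha
      have h1 := congrArg (fun z => ((Additive.toMul z : Subgroup.closure S) : Q)) h
      exact h1) p hp.two_le
  refine ⟨j0, fun j hj s hs A hA hcon => ?_⟩
  have hcop : IsCoprime A ((p ^ j : ℕ) : ℤ) := by
    rw [Nat.cast_pow]
    refine IsCoprime.pow_right ?_
    rw [isCoprime_comm]
    exact (Nat.prime_iff_prime_int.1 hp).irreducible.coprime_iff_not_dvd.2 hA
  obtain ⟨u, v, huv⟩ := hcop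
  refine hj0 j hj (Additive.ofMul ⟨s ^ u * a ^ v, Subgroup.mul_mem _ (Subgroup.zpow_mem _ hs _)
    (Subgroup.zpow_mem _ haS _)⟩) ?_
  apply Additive.toMul.injective
  apply Subtype.ext
  rw [toMul_nsmul]
  change (s ^ u * a ^ v) ^ (p ^ j) = a
  have e1 : a = a ^ (u * A + v * ((p ^ j : ℕ) : ℤ)) := by rw [huv, zpow_one]
  conv_rhs => rw [e1]
  rw [zpow_add, mul_pow, mul_comm u A, zpow_mul a A u, hcon, zpow_mul a v, zpow_natCast]
  congr 1
  rw [← zpow_natCast (s ^ u), ← zpow_mul, ← zpow_natCast s, ← zpow_mul, mul_comm]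

/-- The elements which are infinitely near to `1` in comparison with `a`. -/
def inf {Γ : Type*} [CommGroup Γ] [LinearOrder Γ] [IsOrderedMonoid Γ] (a : Γ) (ha : a < 1) :
    Subgroup Γ where
  carrier := {g | ∀ n : ℤ, a < g ^ n}
  one_mem' := by
    intro n
    rw [one_zpow]
    exact ha
  mul_mem' := by
    intro g h hg hh n
    by_contra hcon
    push Not at hcon
    have h1 : ((g * h) ^ n) ^ 2 ≤ a ^ 2 := pow_le_pow_left' hcon 2
    have h2 : a * a < g ^ (2 * n) * h ^ (2 * n) := mul_lt_mul_of_lt_of_lt (hg _) (hh _)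
    rw [← mul_zpow, mul_comm 2 n, zpow_mul, ← sq] at h2
    exact absurd h1 (not_le.2 (by exact_mod_cast h2))
  inv_mem' := by
    intro g hg n
    rw [inv_zpow']
    exact hg _

lemma inf_tf {Γ : Type*} [CommGroup Γ] [LinearOrder Γ] [IsOrderedMonoid Γ] (a : Γ) (ha : a < 1)
    (m : ℕ) (g : Γ) (hm : m ≠ 0) (hg : g ^ m ∈ inf a ha) : g ∈ inf a ha := by
  intro n
  by_contra hcon
  push Not at hcon
  have h1 := hg n
  rw [← zpow_natCast, ← zpow_mul, mul_comm, zpow_mul, zpow_natCast] at h1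
  have h2 : (g ^ n) ^ m ≤ a ^ m := pow_le_pow_left' hcon m
  have h3 : a ^ m ≤ a := by
    obtain ⟨k, rfl⟩ := Nat.exists_eq_succ_of_ne_zero hm
    rw [pow_succ]
    exact mul_le_of_le_one_left' (pow_le_one' ha.le k)
  exact absurd h1 (not_lt.2 (h2.trans h3))

/-- The group of values, modulo infinitely small values. -/
theorem group_divQ {Γ : Type*} [LinearOrderedCommGroupWithZero Γ] (T : Set Γ) (hT : T.Finite)
    (a : Γ) (ha0 : a ≠ 0) (ha : a < 1) (haT : a ∈ T) (p : ℕ) (hp : p.Prime) :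
    ∃ (H : Subgroup Γˣ) (j0 : ℕ), (∀ t ∈ T, ∀ h : t ≠ 0, Units.mk0 t h ∈ H) ∧
      ∀ j, j0 ≤ j → ∀ b : Γ, b ^ (p ^ j) = a → ∀ z : Γ, z ≠ 0 →
        (∀ n : ℤ, b < (b / z ^ p) ^ n) → ∀ (M : ℕ), ¬ p ∣ M →
        ∀ s ∈ H, ∀ n : ℤ, z ^ M ≠ (s : Γ) * b ^ n := by
  classical
  set au : Γˣ := Units.mk0 a ha0 with hau
  have hau1 : au < 1 := by
    rw [← Units.val_lt_val, Units.val_one]
    exact ha
  let I := inf au hau1
  have hS : ((Units.val : Γˣ → Γ) ⁻¹' T).Finite := hT.preimage Units.val_injective.injOn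
  let π : Γˣ →* Γˣ ⧸ I := QuotientGroup.mk' I
  have hcl : ∀ s ∈ Subgroup.closure ((Units.val : Γˣ → Γ) ⁻¹' T),
      π s ∈ Subgroup.closure (π '' ((Units.val : Γˣ → Γ) ⁻¹' T)) := by
    intro s hs
    rw [← MonoidHom.map_closure]
    exact ⟨s, hs, rfl⟩
  obtain ⟨j0, hj0⟩ := val_divQ (Q := Γˣ ⧸ I) (by
      intro n g hn hg
      obtain ⟨g, rfl⟩ := QuotientGroup.mk'_surjective I g
      rw [← map_pow] at hg
      have h1 : g ^ n ∈ I := (QuotientGroup.eq_one_iff _).1 hg
      exact (QuotientGroup.eq_one_iff _).2 (inf_tf au hau1 n g hn h1))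
    _ (hS.image π) (π au) (by
      intro h
      have h1 : au ∈ I := (QuotientGroup.eq_one_iff _).1 h
      have h2 := h1 1
      rw [zpow_one] at h2
      exact lt_irrefl _ h2) (hcl _ (Subgroup.subset_closure haT)) p hp
  refine ⟨Subgroup.closure ((Units.val : Γˣ → Γ) ⁻¹' T), j0, fun t ht h =>
    Subgroup.subset_closure ht, ?_⟩
  intro j hj b hb z hz0 hz M hM s hs n hcon
  have hb0 : b ≠ 0 := by
    rintro rfl
    rw [zero_pow (pow_ne_zero _ hp.ne_zero)] at hb
    exact ha0 hb.symm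
  set bu : Γˣ := Units.mk0 b hb0 with hbu
  set zu : Γˣ := Units.mk0 z hz0 with hzu
  have hb1 : bu ^ (p ^ j) = au := by
    apply Units.ext
    rw [Units.val_pow_eq_pow_val]
    exact hb
  have hab : au ≤ bu := by
    have hb2 : bu ≤ 1 := by
      by_contra hcon2
      push Not at hcon2
      have h1 : 1 < bu ^ (p ^ j) := one_lt_pow' hcon2 (pow_ne_zero _ hp.ne_zero)
      rw [hb1] at h1
      exact absurd hau1 (not_lt.2 h1.le)
    obtain ⟨k, hk⟩ := Nat.exists_eq_succ_of_ne_zero (pow_ne_zero j hp.ne_zero)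
    rw [← hb1, hk, pow_succ]
    exact mul_le_of_le_one_left' (pow_le_one' hb2 k)
  have h1 : bu / zu ^ p ∈ I := by
    intro n
    refine lt_of_le_of_lt hab ?_
    rw [← Units.val_lt_val, Units.val_zpow_eq_zpow_val, Units.val_div_eq_div_val,
      Units.val_pow_eq_pow_val]
    exact hz n
  have h2 : π bu = π zu ^ p := by
    rw [← map_pow, ← div_eq_one, ← map_div]
    exact (QuotientGroup.eq_one_iff _).2 h1
  have h3 : zu ^ M = s * bu ^ n := by
    apply Units.ext
    rw [Units.val_pow_eq_pow_val, Units.val_mul, Units.val_zpow_eq_zpow_val]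
    exact hcon
  have h4 : π zu ^ M = π s * π bu ^ n := by
    rw [← map_pow, h3, map_mul, map_zpow]
  have h5 : π bu ^ ((M : ℤ) - n * p) = π s ^ p := by
    have h6 : π bu ^ M = π s ^ p * π bu ^ (n * p) := by
      have h7 : π bu ^ M = (π zu ^ M) ^ p := by
        rw [← pow_mul, mul_comm M p, pow_mul, h2]
      rw [h7, h4, mul_pow, zpow_mul, zpow_natCast]
    rw [zpow_sub, zpow_natCast, h6, mul_assoc, mul_inv_cancel, mul_one]
  refine hj0 (j + 1) (by omega) (π s) (hcl s hs) ((M : ℤ) - n * p) ?_ ?_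
  · intro hdvd
    apply hM
    have h6 : (p : ℤ) ∣ (M : ℤ) := by
      have h7 := dvd_add hdvd (Dvd.intro_left n rfl : (p : ℤ) ∣ n * p)
      rwa [sub_add_cancel] at h7
    exact_mod_cast h6
  · rw [← hb1, map_pow, pow_succ', pow_mul, ← h5]
    rw [← zpow_natCast (π bu), ← zpow_mul, ← zpow_natCast (π bu ^ _), ← zpow_mul, mul_comm]

end Pool.Agent.N98.VH
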