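import Pool.Agent.N98.VH.Hlp
import Pool.Agent.N98.VH.Grp
import Pool.Agent.N98.VG.AsmA

/-!
Separable towers of totally ramified extensions.
-/

set_option autoImplicit false
set_option linter.unusedVariables false
set_option linter.unusedSectionVars false

universe u

namespace Pool.Agent.N98.VH

open Polynomial

theorem exists_small_root {Ω : Type u} [Field Ω] [IsAlgClosed Ω] (U : ValuationSubring Ω) (a : Ω)
    (ha : U.valuation a < 1) {p : ℕ} (hp : p ≠ 0) :
    ∃ r : Ω, r ^ p - r ^ (p + 1) = a ∧ U.valuation r < 1 := by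
  classical
  by_contra hcon
  push Not at hcon
  let f : Polynomial Ω := X ^ (p + 1) + (C a - X ^ p)
  have hm : f.Monic := by
    refine monic_X_pow_add ?_
    refine lt_of_le_of_lt (degree_sub_le _ _) (max_lt ?_ ?_)
    · exact lt_of_le_of_lt degree_C_le (by exact_mod_cast Nat.succ_pos p)
    · rw [degree_X_pow]
      exact_mod_cast Nat.lt_succ_self p
  have hs : f.Splits := IsAlgClosed.splits f
  have h0 := hs.coeff_zero_eq_prod_roots_of_monic hm
  have h1 : f.coeff 0 = a := by
    rw [coeff_zero_eq_eval_zero]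
    simp [f, hp]
  have h2 : ∀ s : Multiset Ω, (∀ r ∈ s, 1 ≤ U.valuation r) → 1 ≤ U.valuation s.prod := by
    intro s
    induction s using Multiset.induction_on with
    | empty => intro _; rw [Multiset.prod_zero, map_one]
    | cons r s ih =>
      intro h
      rw [Multiset.prod_cons, map_mul]
      exact one_le_mul_of_one_le_of_one_le (h r (Multiset.mem_cons_self r s))
        (ih fun t ht => h t (Multiset.mem_cons_of_mem ht))
  have h3 := h2 f.roots fun r hr => by
    refine hcon r ?_
    have h4 : f.eval r = 0 := (mem_roots'.1 hr).2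
    simp only [f, eval_add, eval_sub, eval_pow, eval_X, eval_C] at h4
    linear_combination -h4
  have h5 : U.valuation a = U.valuation f.roots.prod := by
    rw [← h1, h0, map_mul, map_pow, Valuation.map_neg, map_one, one_pow, one_mul]
  rw [← h5] at h3
  exact absurd ha (not_lt.2 h3)

/-- Towers of totally ramified extensions. -/
theorem exists_tower {Ω : Type u} [Field Ω] [IsAlgClosed Ω] (U : ValuationSubring Ω) (a : Ω)
    (ha0 : a ≠ 0) (ha : U.valuation a < 1) {p : ℕ} (hp : p ≠ 0) :
    ∃ ρ : ℕ → Ω, ρ 0 = a ∧ (∀ j, ρ (j + 1) ^ p - ρ (j + 1) ^ (p + 1) = ρ j) ∧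
      (∀ j, ρ j ≠ 0) ∧ (∀ j, U.valuation (ρ j) < 1) ∧
      ∀ j, U.valuation (ρ j) ^ (p ^ j) = U.valuation a := by
  classical
  choose f hf hf1 using fun z : {z : Ω // U.valuation z < 1} => exists_small_root U z.1 z.2 hp
  let ρ' : ℕ → {z : Ω // U.valuation z < 1} := fun n =>
    Nat.rec ⟨a, ha⟩ (fun _ z => ⟨f z, hf1 z⟩) n
  let ρ : ℕ → Ω := fun n => (ρ' n).1
  have h1 : ∀ j, ρ (j + 1) ^ p - ρ (j + 1) ^ (p + 1) = ρ j := fun j => hf (ρ' j)
  have h2 : ∀ j, U.valuation (ρ j) < 1 := fun j => (ρ' j).2
  have h3 : ∀ j, ρ j ≠ 0 := by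
    intro j
    induction j with
    | zero => exact ha0
    | succ j ih =>
      intro h
      apply ih
      rw [← h1 j, h, zero_pow hp, zero_pow (Nat.succ_ne_zero p), sub_zero]
  refine ⟨ρ, rfl, h1, h3, h2, fun j => ?_⟩
  induction j with
  | zero =>
    rw [pow_zero, pow_one]
    rfl
  | succ j ih =>
    have h4 : U.valuation (1 - ρ (j + 1)) = 1 := U.valuation.map_one_sub_of_lt (h2 (j + 1))
    have h6 : U.valuation (ρ (j + 1)) ^ p = U.valuation (ρ j) := by
      rw [← h1 j]
      have e1 : ρ (j + 1) ^ p - ρ (j + 1) ^ (p + 1) = ρ (j + 1) ^ p * (1 - ρ (j + 1)) := by ring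
      rw [e1, map_mul, h4, mul_one, map_pow]
    rw [pow_succ', pow_mul, h6, ih]

/-- Simple roots are separable. -/
lemma sep_of_root {k F : Type u} [Field k] [Field F] [Algebra k F] (r : F)
    (g : Polynomial (separableClosure k F)) (hr : aeval r g = 0)
    (hd : aeval r (derivative g) ≠ 0) : IsSeparable k r := by
  have hg0 : g ≠ 0 := by
    rintro rfl
    rw [derivative_zero, map_zero] at hd
    exact hd rfl
  have hint : IsIntegral (separableClosure k F) r := isAlgebraic_iff_isIntegral.1 ⟨g, hg0, hr⟩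
  obtain ⟨h, hh⟩ := minpoly.dvd (separableClosure k F) r hr
  have h1 : derivative (minpoly (separableClosure k F) r) ≠ 0 := by
    intro h0
    apply hd
    rw [hh, derivative_mul, h0, zero_mul, zero_add, map_mul, minpoly.aeval, zero_mul]
  have h2 : IsSeparable (separableClosure k F) r :=
    (separable_iff_derivative_ne_zero (minpoly.irreducible hint)).2 h1
  exact IsSeparable.of_algebra_isSeparable_of_isSeparable k h2

end Pool.Agent.N98.VH
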