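import Pool.Agent.N98.VH.Asm2
import Pool.Agent.N98.VH.Ss

/-!
Models over separable towers: auxiliary results.
-/

set_option autoImplicit false
set_option linter.unusedVariables false
set_option linter.unusedSectionVars false

universe u

namespace Pool.Agent.N98.VH

open IsLocalRing Pool.Agent.W418.LU2 Pool.Agent.H176.DT Pool.Agent.N98.VG

/-- The powers of `ρ` are cofinal. -/
lemma cofinal_alg {K L : Type u} [Field K] [Field L] [Algebra K L] {V : ValuationSubring K}
    {VL : ValuationSubring L} (h : VL.comap (algebraMap K L) = V) {π : K} {ρ : L} {m : ℕ}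
    (hρ : VL.valuation ρ ^ m = VL.valuation (algebraMap K L π)) (hint : IsIntegral K ρ)
    (hgen : ∀ z : L, z ∈ Subfield.closure (Set.range (algebraMap K L) ∪ {ρ}))
    (hπV : ∀ z : K, z ≠ 0 → ∃ n : ℕ, V.valuation π ^ n ≤ V.valuation z) (z : L) (hz : z ≠ 0) :
    ∃ n : ℕ, VL.valuation ρ ^ n ≤ VL.valuation z := by
  have halg : ∀ z : L, IsAlgebraic K z := by
    intro z
    have h1 : Subfield.closure (Set.range (algebraMap K L) ∪ {ρ}) ≤
        (algebraicClosure K L).toSubfield := by
      rw [Subfield.closure_le]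
      rintro z (⟨a, rfl⟩ | hz)
      · exact (algebraicClosure K L).algebraMap_mem a
      · rw [Set.mem_singleton_iff.1 hz]
        change ρ ∈ algebraicClosure K L
        rw [mem_algebraicClosure_iff']
        exact hint
    have h2 : z ∈ algebraicClosure K L := h1 (hgen z)
    rw [mem_algebraicClosure_iff'] at h2
    exact h2.isAlgebraic
  obtain ⟨e, he0, he1, he2⟩ := exists_small (E := K) VL z⁻¹ (halg _)
  obtain ⟨n, hn⟩ := hπV e he0
  refine ⟨m * n, ?_⟩
  have h1 : VL.valuation ρ ^ (m * n) ≤ VL.valuation (algebraMap K L e) := by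
    rw [pow_mul, hρ, ← map_pow, ← map_pow]
    rw [← map_pow] at hn
    exact (val_le h he0).2 hn
  refine h1.trans ?_
  have h2 : VL.valuation (algebraMap K L e) = VL.valuation (algebraMap K L e * z⁻¹) *
      VL.valuation z := by
    rw [← map_mul, mul_assoc, inv_mul_cancel₀ hz, mul_one]
  rw [h2]
  exact mul_le_of_le_one_left' he2

/-- The chart over the extension is a model. -/
lemma mod_alg {K L : Type u} [Field K] [Field L] [Algebra K L] {V : ValuationSubring K}
    {VL : ValuationSubring L} (h : VL.comap (algebraMap K L) = V) {ρ : L}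
    (hgen : ∀ z : L, z ∈ Subfield.closure (Set.range (algebraMap K L) ∪ {ρ}))
    (O : Subring K) (hOV : ∀ a ∈ Orm O ρ, a ∈ VL) (W : Set K) (w : K)
    (hwV : ∀ z ∈ W, z / w ∈ V)
    (hfr : ∀ z : K, ∃ a ∈ ch O W w, ∃ b ∈ ch O W w, b ≠ 0 ∧ z = a * b⁻¹) :
    Mod VL (ch (Orm O ρ) (algebraMap K L '' W) (algebraMap K L w)) := by
  refine ⟨?_, fun z => ?_⟩
  · unfold ch
    rw [Subring.closure_le]
    rintro z (hz | ⟨_, ⟨u, hu, rfl⟩, rfl⟩)
    · exact hOV z hz
    · rw [← map_div₀]
      exact (val_mem h).2 (hwV u hu)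
  · have h1 : Subfield.closure (Set.range (algebraMap K L) ∪ {ρ}) ≤
        fr (ch (Orm O ρ) (algebraMap K L '' W) (algebraMap K L w)) := by
      rw [Subfield.closure_le]
      rintro z (⟨a, rfl⟩ | hz)
      · obtain ⟨a, ha, b, hb, hb0, rfl⟩ := hfr a
        rw [map_mul, map_inv₀]
        exact mul_mem (le_fr _ (ch_map O ρ W w ha)) (inv_mem (le_fr _ (ch_map O ρ W w hb)))
      · rw [Set.mem_singleton_iff.1 hz]
        exact le_fr _ (Subring.subset_closure (Or.inl (Subring.subset_closure (Or.inr rfl))))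
    exact Pool.Agent.R187.CT.fr_iff.2 (h1 (hgen z))

/-- Large integers which are units. -/
lemma exists_unit_nat {K : Type u} [Field K] (V : ValuationSubring K) (N₀ : ℕ) :
    ∃ t : ℕ, N₀ < t ∧ V.valuation (t : K) = 1 := by
  by_contra hcon
  push Not at hcon
  have hle : ∀ n : ℕ, V.valuation (n : K) ≤ 1 := fun n =>
    (V.valuation_le_one_iff _).2 (natCast_mem V n)
  have h1 := lt_of_le_of_ne (hle (N₀ + 1)) (hcon (N₀ + 1) (by omega))
  have h2 := lt_of_le_of_ne (hle (N₀ + 2)) (hcon (N₀ + 2) (by omega))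
  have h3 : V.valuation (((N₀ + 2 : ℕ) : K) - ((N₀ + 1 : ℕ) : K)) < 1 :=
    (V.valuation.map_sub _ _).trans_lt (max_lt h2 h1)
  have h4 : ((N₀ + 2 : ℕ) : K) - ((N₀ + 1 : ℕ) : K) = 1 := by
    push_cast
    ring
  rw [h4, map_one] at h3
  exact lt_irrefl _ h3

/-- Numbers whose prime divisors are units. -/
lemma unit_of_primes {K : Type u} [Field K] (V : ValuationSubring K) (d : ℕ) (hd : 0 < d)
    (h : ∀ q : ℕ, q.Prime → q ∣ d → V.valuation (q : K) = 1) : V.valuation (d : K) = 1 := by
  induction d using induction_on_primes with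
  | zero => exact absurd hd (lt_irrefl _)
  | one => rw [Nat.cast_one, map_one]
  | prime_mul q a hq ih =>
    rw [Nat.cast_mul, map_mul, h q hq (Dvd.intro a rfl), one_mul]
    exact ih (Nat.pos_of_ne_zero (right_ne_zero_of_mul hd.ne')) fun q' hq' hd' =>
      h q' hq' (Dvd.dvd.mul_left hd' q)

/-- The composite with a tame extension is separable. -/
lemma sep_root {K L K' : Type u} [Field K] [Field L] [Field K'] [Algebra K L] [Algebra L K']
    (k : Subfield K) (ρ : L) (hρ0 : ρ ≠ 0)
    (hP : ∃ P : Polynomial k, P.Separable ∧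
      P.eval₂ ((algebraMap K L).comp k.subtype) ρ = 0) (ϖ : K') (N : ℕ) (hN : (N : K') ≠ 0)
    (hϖ : ϖ ^ N = algebraMap L K' ρ) :
    ∃ P : Polynomial k, P.Separable ∧
      P.eval₂ (((algebraMap L K').comp (algebraMap K L)).comp k.subtype) ϖ = 0 := by
  letI ik : Algebra k K' := (((algebraMap L K').comp (algebraMap K L)).comp k.subtype).toAlgebra
  obtain ⟨P, hPs, hP0⟩ := hP
  have h1 : Polynomial.aeval (algebraMap L K' ρ) P = 0 := by
    change P.eval₂ (algebraMap k K') (algebraMap L K' ρ) = 0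
    have h2 := congrArg (algebraMap L K') hP0
    rw [map_zero, Polynomial.hom_eval₂] at h2
    exact h2
  have hs : IsSeparable k (algebraMap L K' ρ) :=
    Polynomial.Separable.of_dvd hPs (minpoly.dvd k _ h1)
  have hN0 : N ≠ 0 := by
    rintro rfl
    exact hN Nat.cast_zero
  have hϖ0 : ϖ ≠ 0 := by
    rintro rfl
    rw [zero_pow hN0] at hϖ
    exact hρ0 ((_root_.map_eq_zero _).1 hϖ.symm)
  have h3 : IsSeparable k ϖ := by
    refine sep_of_root ϖ (Polynomial.X ^ N -
      Polynomial.C (⟨algebraMap L K' ρ, mem_separableClosure_iff.2 hs⟩ :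
        separableClosure k K')) ?_ ?_
    · rw [map_sub, map_pow, Polynomial.aeval_X, Polynomial.aeval_C, hϖ]
      exact sub_self _
    · rw [Polynomial.derivative_sub, Polynomial.derivative_C, Polynomial.derivative_X_pow,
        sub_zero, map_mul, Polynomial.aeval_C, map_natCast, map_pow, Polynomial.aeval_X]
      exact mul_ne_zero hN (pow_ne_zero _ hϖ0)
  exact ⟨minpoly k ϖ, h3, minpoly.aeval k ϖ⟩

end Pool.Agent.N98.VH
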