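import Pool.Agent.N98.VH.HypF
import Pool.Agent.N98.VG.Rel

/-!
Models of varieties of bounded degree: the values of the local equations.
-/

set_option autoImplicit false
set_option linter.unusedVariables false
set_option linter.unusedSectionVars false

universe u

namespace Pool.Agent.N98.VH

open Pool.Agent.N98.RV Pool.Agent.N98.RW Pool.Agent.N98.VG

open MvPolynomial Pool.Agent.N98

section main

/-- **Models of varieties of bounded degree**, the relative version. -/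
theorem relV {E₀ : Type u} [Field E₀] {r N δ : ℕ} (hδ1 : 1 ≤ δ)
    (hfac : ((Nat.factorial (δ ^ 2 ^ r) : ℕ) : E₀) ≠ 0)
    (c : Fin (r + 1) → Fin N → E₀) (F W : MvPolynomial (Fin (r + 1)) E₀)
    (V : Fin N → MvPolynomial (Fin (r + 1)) E₀) (hF : Irreducible F) (hFd : F.totalDegree ≤ δ)
    (hWd : W.totalDegree ≤ δ) (hVd : ∀ j, (V j).totalDegree ≤ δ) (hFW : ¬ F ∣ W)
    (B : Type) [Finite B] (a0 : B → E₀) (a : B → Fin N → E₀)
    (hb : ∀ b, ¬ F ∣ (C (a0 b) * W - ∑ j, C (a b j) * V j)) :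
    ∃ S : Set (MvPolynomial (Fin (r + 1)) E₀), S.Finite ∧ (∀ q ∈ S, ¬ F ∣ q) ∧
    ∀ (E : Type u) [Field E] [Algebra E₀ E] (K : Type u) [Field K] [Algebra E₀ K] [Algebra E K]
    [IsScalarTower E₀ E K]
    {𝒮 : Set (Subring E × Set E)} (_ : ∀ k Θ, (k, Θ) ∈ 𝒮 → IsNoetherianRing k)
    (_ : ∀ (k : Subring E) (Θ : Set E), (k, Θ) ∈ 𝒮 → 0 ∉ Θ ∧ ∀ s : Finset E, (∀ e ∈ s, e ∈ Θ) →
      ∃ d ∈ Θ, d ∈ k ∧ ∀ e ∈ s, d * e ∈ k)
    {𝒲 : Set (ValuationSubring E)} (_ : HasF 𝒮 𝒲)
    (_ : (exV K 𝒲).Nonempty)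
    (_ : ∀ (k : Subring E) (Θ : Set E), (k, Θ) ∈ 𝒮 →
      IsUnit ((Nat.factorial (δ ^ 2 ^ r) : ℕ) : k)) (x : Fin N → K)
    (_ : IntermediateField.adjoin E (Set.range x) = ⊤)
    (_ : Irreducible (MvPolynomial.map (algebraMap E₀ E) F))
    (_ : ∀ g : MvPolynomial (Fin (r + 1)) E,
      MvPolynomial.aeval (fun i => ∑ j, algebraMap E₀ K (c i j) * x j) g = 0 ↔
        MvPolynomial.map (algebraMap E₀ E) F ∣ g)
    (_ : ∀ g : MvPolynomial (Fin (r + 1)) E₀,
      MvPolynomial.aeval (fun i => ∑ j, algebraMap E₀ K (c i j) * x j) g = 0 ↔ F ∣ g)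
    (_ : ∀ j, MvPolynomial.aeval (fun i => ∑ j, algebraMap E₀ K (c i j) * x j) (V j) +
      MvPolynomial.aeval (fun i => ∑ j, algebraMap E₀ K (c i j) * x j) W * x j = 0)
    (H : Type) [Finite H] (h : H → E) (_ : ∀ i, h i ≠ 0),
    ∃ (k : Subring E) (Θ : Set E) (_ : (k, Θ) ∈ 𝒮) (T I : Type) (_ : Finite T) (_ : Fintype I)
      (M : LM (exV K 𝒲) (⊥ : Subalgebra k K) (Algebra.adjoin k
        (Set.range fun i => ∑ j, algebraMap E₀ K (c i j) * x j)) T I), Frc M ∧
      (∀ b, RW.IsBr M (algebraMap E₀ K (a0 b) + ∑ j, algebraMap E₀ K (a b j) * x j)) ∧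
      (∀ i, h i ∈ Θ) ∧ (∀ e ∈ Θ, RW.IsBr M (algebraMap E K e)) ∧
      ∀ (V : ValuationSubring K) (Pr : K → Prop), Sat k V Pr →
        (∀ q ∈ S, Pr (MvPolynomial.aeval (fun i => ∑ j, algebraMap E₀ K (c i j) * x j) q)) →
        (∀ e : E, e ≠ 0 → Pr (algebraMap E K e)) → VG M V Pr := by
  classical
  obtain ⟨S, hSf, hS, hh⟩ := VH.hypV (n := r + 1) δ hδ1 hfac F hF hFd (Option B)
    (fun o => o.elim W fun b => C (a0 b) * W - ∑ j, C (a b j) * V j) (by
      rintro (_ | b)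
      · exact hFW
      · exact hb b) (by
      rintro (_ | b)
      · exact hWd
      · change (C (a0 b) * W - ∑ j, C (a b j) * V j).totalDegree ≤ δ
        refine (totalDegree_sub _ _).trans (max_le ?_ ?_)
        · refine (totalDegree_mul _ _).trans ?_
          rw [totalDegree_C, zero_add]
          exact hWd
        · refine totalDegree_finsetSum_le fun j _ => ?_
          refine (totalDegree_mul _ _).trans ?_
          rw [totalDegree_C, zero_add]
          exact hVd j)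
  refine ⟨S, hSf, hS, ?_⟩
  intro E _ _ K _ _ _ _ 𝒮 h𝒮 hden 𝒲 hE hne hchar x htop hirr hker hker0 hV H _ h hh0
  set y : Fin (r + 1) → K := fun i => ∑ j, algebraMap E₀ K (c i j) * x j with hy
  have hW : aeval y W ≠ 0 := fun h0 => hFW ((hker0 _).1 h0)
  have hxV : ∀ j, x j = -aeval y (V j) / aeval y W := by
    intro j
    rw [eq_div_iff hW, eq_neg_iff_add_eq_zero, mul_comm, add_comm]
    exact hV j
  have hytop : IntermediateField.adjoin E (Set.range y) = ⊤ := by
    rw [eq_top_iff, ← htop, IntermediateField.adjoin_le_iff]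
    rintro _ ⟨j, rfl⟩
    rw [SetLike.mem_coe, hxV j]
    have h1 : ∀ g : MvPolynomial (Fin (r + 1)) E₀, aeval y g ∈
        IntermediateField.adjoin E (Set.range y) := by
      intro g
      have h2 : aeval y (MvPolynomial.map (algebraMap E₀ E) g) ∈
          Algebra.adjoin E (Set.range y) := by
        rw [Algebra.adjoin_range_eq_range_aeval]
        exact ⟨_, rfl⟩
      rw [MvPolynomial.aeval_map_algebraMap] at h2
      exact IntermediateField.algebra_adjoin_le_adjoin _ _ h2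
    exact _root_.div_mem (neg_mem (h1 _)) (h1 _)
  have hl : ∀ b, (algebraMap E₀ K (a0 b) + ∑ j, algebraMap E₀ K (a b j) * x j) * aeval y W =
      aeval y (C (a0 b) * W - ∑ j, C (a b j) * V j) := by
    intro b
    rw [map_sub, map_mul, aeval_C, map_sum, add_mul, Finset.sum_mul, sub_eq_add_neg]
    congr 1
    rw [← Finset.sum_neg_distrib]
    refine Finset.sum_congr rfl fun j _ => ?_
    rw [map_mul, aeval_C]
    have := hV j
    linear_combination (algebraMap E₀ K (a b j)) * this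
  obtain ⟨k, Θ, hk, T, I, hT, hI, M, hFr, hM, hΘ, hΘB, hMv⟩ := hh E K
    (FractionRing (MvPolynomial (Fin (r + 1)) E)) h𝒮 hden hE hne hchar y hytop _ rfl hirr hker
    hker0 H h hh0
  refine ⟨k, Θ, hk, T, I, hT, hI, M, hFr, fun b => ?_, hΘ, hΘB, hMv⟩
  have h1 : algebraMap E₀ K (a0 b) + ∑ j, algebraMap E₀ K (a b j) * x j =
      aeval y (C (a0 b) * W - ∑ j, C (a b j) * V j) * (aeval y W)⁻¹ := by
    rw [← hl b, mul_assoc, mul_inv_cancel₀ hW, mul_one]
  rw [h1]
  exact (hM (some b)).mul (hM none).inv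

end main

end Pool.Agent.N98.VH
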