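import Pool.Agent.N98.VG.Hlp
import Pool.Agent.N98.VH.Lev

/-!
The extensions of the base ring.
-/

set_option autoImplicit false
set_option linter.unusedVariables false
set_option linter.unusedSectionVars false

universe u

namespace Pool.Agent.N98.VH

open IsLocalRing Pool.Agent.W418.LU2 Pool.Agent.H176.DT Pool.Agent.R187.CT Pool.Agent.TH188.QS
  Pool.Agent.N98.VG

/-- The ring `O[ρ]`. -/
theorem base_ring {K L E : Type u} [Field K] [Field L] [Field E] [Algebra K L]
    [Algebra E L] (V : ValuationSubring K) (VL : ValuationSubring L)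
    (hVL : VL.comap (algebraMap K L) = V) (O : Subring K) (hOb : HJ O)
    (hO : ∀ a ∈ O, a ∈ V) (π : K)
    (hπO : ∀ a ∈ O, V.valuation a < 1 → ∃ b ∈ O, ∃ c ∈ O, V.valuation c = 1 ∧ c * a = π * b)
    (ρ : E) (hρ0 : ρ ≠ 0) (hρ1 : VL.valuation (algebraMap E L ρ) < 1)
    (ι : O →+* E) (hι : ∀ a : O, algebraMap E L (ι a) = algebraMap K L a)
    (hρ : ∃ g ∈ rg ι {ρ}, algebraMap K L π = algebraMap E L (g * ρ))
    (hE : ∀ z : E, z ∈ Subfield.closure ((ι.range : Set E) ∪ {ρ})) :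
    IsNoetherianRing (rg ι {ρ}) ∧ (∀ a ∈ rg ι {ρ}, algebraMap E L a ∈ VL) ∧
      (∀ z : E, ∃ a ∈ rg ι {ρ}, ∃ b ∈ rg ι {ρ}, b ≠ 0 ∧ z = a * b⁻¹) ∧ ρ ∈ rg ι {ρ} ∧ ρ ≠ 0 ∧
      VL.valuation (algebraMap E L ρ) < 1 ∧
      (∀ a ∈ rg ι {ρ}, VL.valuation (algebraMap E L a) < 1 →
        ∃ b ∈ rg ι {ρ}, ∃ c ∈ rg ι {ρ}, VL.valuation (algebraMap E L c) = 1 ∧ c * a = b * ρ) ∧
      (rg ι {ρ}).map (algebraMap E L) = Orm O (algebraMap E L ρ) := by
  have hρR : ρ ∈ rg ι {ρ} := Subring.subset_closure (Or.inr rfl)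
  have hιR : ∀ a, ι a ∈ rg ι {ρ} := fun a => Subring.subset_closure (Or.inl ⟨a, rfl⟩)
  have hRV : ∀ a ∈ rg ι {ρ}, algebraMap E L a ∈ VL := by
    have h1 : rg ι {ρ} ≤ (VL.comap (algebraMap E L)).toSubring := by
      rw [Subring.closure_le]
      rintro z (⟨a, rfl⟩ | hz)
      · change algebraMap E L (ι a) ∈ VL
        rw [hι]
        exact (val_mem hVL).2 (hO a a.2)
      · rw [Set.mem_singleton_iff.1 hz]
        change algebraMap E L ρ ∈ VL
        exact (VL.valuation_le_one_iff _).1 hρ1.le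
    exact fun a ha => h1 ha
  refine ⟨noe_rg hOb ι (Set.finite_singleton ρ), hRV, ?_, hρR, hρ0, hρ1, ?_, ?_⟩
  · intro z
    have h1 : Subfield.closure ((ι.range : Set E) ∪ {ρ}) ≤ fr (rg ι {ρ}) := by
      rw [Subfield.closure_le]
      exact fun x hx => le_fr _ (Subring.subset_closure hx)
    exact fr_iff.2 (h1 (hE z))
  · -- the decomposition
    have h1 : ∀ a ∈ rg ι {ρ}, ∃ (a0 : O), ∃ b ∈ rg ι {ρ}, a = ι a0 + b * ρ := by
      intro a ha
      induction ha using Subring.closure_induction with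
      | mem z hz =>
        rcases hz with ⟨a, rfl⟩ | hz
        · exact ⟨a, 0, Subring.zero_mem _, by ring⟩
        · rw [Set.mem_singleton_iff.1 hz]
          exact ⟨0, 1, Subring.one_mem _, by rw [map_zero]; ring⟩
      | zero => exact ⟨0, 0, Subring.zero_mem _, by rw [map_zero]; ring⟩
      | one => exact ⟨1, 0, Subring.zero_mem _, by rw [map_one]; ring⟩
      | add x y _ _ hx hy =>
        obtain ⟨a, b, hb, rfl⟩ := hx
        obtain ⟨a', b', hb', rfl⟩ := hy
        exact ⟨a + a', b + b', Subring.add_mem _ hb hb', by rw [map_add]; ring⟩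
      | neg x _ hx =>
        obtain ⟨a, b, hb, rfl⟩ := hx
        exact ⟨-a, -b, Subring.neg_mem _ hb, by rw [map_neg]; ring⟩
      | mul x y _ _ hx hy =>
        obtain ⟨a, b, hb, rfl⟩ := hx
        obtain ⟨a', b', hb', rfl⟩ := hy
        refine ⟨a * a', ι a * b' + b * ι a' + b * b' * ρ, ?_, by rw [map_mul]; ring⟩
        exact Subring.add_mem _ (Subring.add_mem _ (Subring.mul_mem _ (hιR _) hb')
          (Subring.mul_mem _ hb (hιR _))) (Subring.mul_mem _ (Subring.mul_mem _ hb hb') hρR)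
    intro a ha ha1
    obtain ⟨a0, b, hb, rfl⟩ := h1 a ha
    have h2 : V.valuation (a0 : K) < 1 := by
      rw [← val_lt_one hVL, ← hι]
      have e1 : algebraMap E L (ι a0) = algebraMap E L (ι a0 + b * ρ) -
          algebraMap E L b * algebraMap E L ρ := by
        rw [map_add, map_mul]
        ring
      rw [e1]
      refine (VL.valuation.map_sub _ _).trans_lt (max_lt ha1 ?_)
      rw [map_mul]
      exact (mul_le_of_le_one_left' ((VL.valuation_le_one_iff _).2 (hRV b hb))).trans_lt hρ1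
    obtain ⟨b0, hb0, c0, hc0, hc1, e⟩ := hπO a0 a0.2 h2
    obtain ⟨g, hg, hρ⟩ := hρ
    refine ⟨g * ι ⟨b0, hb0⟩ + ι ⟨c0, hc0⟩ * b, ?_, ι ⟨c0, hc0⟩, hιR _, ?_, ?_⟩
    · exact Subring.add_mem _ (Subring.mul_mem _ hg (hιR _))
        (Subring.mul_mem _ (hιR _) hb)
    · rw [hι]
      exact (val_eq_one hVL).2 hc1
    · apply (algebraMap E L).injective
      have e2 : algebraMap K L c0 * algebraMap K L (a0 : K) =
          algebraMap K L π * algebraMap K L b0 := by rw [← map_mul, ← map_mul, e]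
      rw [map_mul] at hρ
      simp only [map_mul, map_add, map_pow, hι]
      linear_combination e2 + algebraMap K L b0 * hρ
  · apply le_antisymm
    · rw [Subring.map_le_iff_le_comap, Subring.closure_le]
      rintro z (⟨a, rfl⟩ | hz)
      · change algebraMap E L (ι a) ∈ Orm O (algebraMap E L ρ)
        rw [hι]
        exact Subring.subset_closure (Or.inl ⟨a, a.2, rfl⟩)
      · rw [Set.mem_singleton_iff.1 hz]
        exact Subring.subset_closure (Or.inr rfl)
    · change Subring.closure ((O.map (algebraMap K L) : Set L) ∪ {algebraMap E L ρ}) ≤ _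
      rw [Subring.closure_le]
      rintro z (⟨a, ha, rfl⟩ | hz)
      · exact ⟨ι ⟨a, ha⟩, hιR _, hι _⟩
      · rw [Set.mem_singleton_iff.1 hz]
        exact ⟨ρ, hρR, rfl⟩

end Pool.Agent.N98.VH
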